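import Pool.Agent.helper31.UNI.Uni

/-!
# The uniform lower bound for the basins of the cycles of the 3x+1 map on the integers

`uni`: signed form of `uni_all`.  `cyc_low`: the basin of every cycle `c` of sign `s` has lower density at least
`c1 * ∑ x ∈ c, 1 / |x|`, with an absolute constant `c1`.  `cyc_log`: `|K log 2 - L log 3| ≤ ∑ x ∈ c, 1 / |x|`.
-/

namespace Pool.Agent.helper31.UNI

open Finset Pool.Agent.helper14.EX1 Pool.Agent.helper4.BAS

theorem T_zero_iter (k : ℕ) : T^[k] 0 = 0 := by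
  induction k with
  | zero => rfl
  | succ k ih =>
    rw [Function.iterate_succ_apply]
    have : T 0 = 0 := by
      unfold T
      norm_num
    rw [this, ih]

/-- the sign is kept -/
theorem sign_back {s n : ℤ} {k : ℕ} (hs : s = 1 ∨ s = -1) (h : 0 < s * T^[k] n) : 0 < s * n := by
  have h1 := T_pos n k
  rcases lt_trichotomy n 0 with h2 | h2 | h2
  · have h3 := h1.2 h2
    rcases hs with rfl | rfl <;> linarith
  · rw [h2, T_zero_iter, mul_zero] at h
    exact absurd h (lt_irrefl _)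
  · have h3 := h1.1 h2
    rcases hs with rfl | rfl <;> linarith

/-- counting with signs -/
theorem card_sign {s : ℤ} (hs : s = 1 ∨ s = -1) (X : ℕ) (B : Finset ℤ) (Q : ℕ → Prop)
    [DecidablePred Q] (hB : ∀ n ∈ B, |n| ≤ X ∧ 0 < s * n ∧ Q (s * n).toNat) :
    B.card ≤ ((Icc 1 X).filter Q).card := by
  refine card_le_card_of_injOn (fun n : ℤ => (s * n).toNat) ?_ ?_
  · intro n hn
    obtain ⟨h1, h2, h3⟩ := hB n hn
    rw [coe_filter]
    refine ⟨?_, h3⟩
    rw [mem_Icc]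
    have h4 := abs_le.1 h1
    show 1 ≤ (s * n).toNat ∧ (s * n).toNat ≤ X
    rcases hs with rfl | rfl <;> omega
  · intro n hn n' hn' h
    obtain ⟨-, h2, -⟩ := hB n hn
    obtain ⟨-, h2', -⟩ := hB n' hn'
    have h3 : (s * n).toNat = (s * n').toNat := h
    rcases hs with rfl | rfl <;> omega

open Classical in
/-- **The uniform lower bound**, signed form. -/
theorem uni : ∃ c0 : ℝ, 0 < c0 ∧ ∀ s m : ℤ, (s = 1 ∨ s = -1) → 0 < s * m → ¬ (3 : ℤ) ∣ m →
    ∃ X0 : ℕ, ∀ X : ℕ, X0 ≤ X → c0 / ((s * m : ℤ) : ℝ) * X ≤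
      (((Icc 1 X).filter (fun n : ℕ => ∃ k : ℕ, T^[k] (s * (n : ℤ)) = m)).card : ℝ) := by
  obtain ⟨D, hD, H⟩ := uni_all
  refine ⟨1 / D, by positivity, fun s m hs hm h3 => ?_⟩
  obtain ⟨X0, hX0⟩ := exists_nat_ge (D * |(m : ℝ)|)
  refine ⟨X0, fun X hX => ?_⟩
  have h1 := H m h3 X (hX0.trans (by exact_mod_cast hX))
  have hsm : ((s * m : ℤ) : ℝ) = |(m : ℝ)| := by
    have h2 : s * m = |m| := by
      rcases hs with rfl | rfl
      · rw [abs_of_pos (by linarith)]
        ring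
      · rw [abs_of_neg (by linarith)]
        ring
    rw [h2]
    push_cast
    rfl
  have hm0 : 0 < |(m : ℝ)| := by
    rw [← hsm]
    exact_mod_cast hm
  have h2 : 1 / D / ((s * m : ℤ) : ℝ) * (X : ℝ) = X / (D * |(m : ℝ)|) := by
    rw [hsm]
    field_simp
  rw [h2]
  refine h1.trans ?_
  have h4 := card_sign hs X (pre m X) (fun n : ℕ => ∃ k : ℕ, T^[k] (s * (n : ℤ)) = m) (by
    intro n hn
    rw [mem_pre] at hn
    obtain ⟨h5, k, h6⟩ := hn
    have h7 : 0 < s * n := sign_back (k := k) hs (by rw [h6]; exact hm)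
    refine ⟨h5, h7, k, ?_⟩
    have h8 : s * (((s * n).toNat : ℕ) : ℤ) = n := by
      rw [Int.toNat_of_nonneg h7.le]
      rcases hs with rfl | rfl <;> ring
    rw [h8, h6])
  exact_mod_cast h4

/-! ## cycles -/

theorem cyc_per {c : Set ℤ} (hc : IsCycle c) {m : ℤ} (hm : m ∈ c) : Per m ∧ ∀ i : ℕ, T^[i] m ∈ c := by
  obtain ⟨n, ⟨k, hk, hn⟩, rfl⟩ := hc
  obtain ⟨j, hj⟩ := hm
  refine ⟨⟨k, hk, ?_⟩, fun i => ⟨i + j, ?_⟩⟩
  · rw [← hj, ← Function.iterate_add_apply, add_comm, Function.iterate_add_apply, hn]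
  · rw [Function.iterate_add_apply, hj]

/-- the node `3 x + 1` next to the cycle -/
theorem side_np {x : ℤ} (hx : Per x) (ho : x % 2 = 1) : ¬ Per (3 * x + 1) := by
  intro h
  have h1 : T (3 * x + 1) = T x := by
    unfold T
    rw [if_pos (by omega), if_neg (by omega)]
  have := Per_inj h hx h1
  omega

theorem side_T {x : ℤ} (ho : x % 2 = 1) : T (3 * x + 1) = T x := by
  unfold T
  rw [if_pos (by omega), if_neg (by omega)]

/-- the predecessor sets of the nodes `3 x + 1` are disjoint -/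
theorem side_disj {x y : ℤ} (hx : Per x) (hxo : x % 2 = 1) (hy : Per y) (hyo : y % 2 = 1)
    (hxy : x ≠ y) (X : ℕ) : Disjoint (pre (3 * x + 1) X) (pre (3 * y + 1) X) := by
  have key : ∀ (x y : ℤ) (n : ℤ) (i j : ℕ), Per x → x % 2 = 1 → Per y → y % 2 = 1 → x ≠ y →
      T^[i] n = 3 * x + 1 → T^[j] n = 3 * y + 1 → i ≤ j → False := by
    intro x y n i j hx hxo hy hyo hxy h1 h2 hij
    obtain ⟨d, rfl⟩ := Nat.exists_eq_add_of_le hij
    rw [add_comm, Function.iterate_add_apply, h1] at h2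
    rcases Nat.eq_zero_or_pos d with rfl | hd
    · have h3 : 3 * x + 1 = 3 * y + 1 := h2
      exact hxy (by linarith)
    · obtain ⟨e, rfl⟩ := Nat.exists_eq_add_of_le' hd
      rw [Function.iterate_succ_apply, side_T hxo] at h2
      exact side_np hy hyo (h2 ▸ Per_iter (Per_T hx) e)
  rw [disjoint_left]
  intro n hn hn'
  rw [mem_pre] at hn hn'
  obtain ⟨-, i, hi⟩ := hn
  obtain ⟨-, j, hj⟩ := hn'
  rcases le_total i j with h | h
  · exact key x y n i j hx hxo hy hyo hxy hi hj h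
  · exact key y x n j i hy hyo hx hxo hxy.symm hj hi h

/-- the odd part of an element of a cycle -/
theorem odd_part {c : Set ℤ} (hc : IsCycle c) (h0 : (0 : ℤ) ∉ c) : ∀ (N : ℕ) (x : ℤ), x.natAbs ≤ N → x ∈ c →
    ∃ (j : ℕ) (z : ℤ), x = 2 ^ j * z ∧ z % 2 = 1 ∧ z ∈ c := by
  intro N
  induction N with
  | zero =>
    intro x hx hxc
    have : x = 0 := by omega
    exact absurd (this ▸ hxc) h0
  | succ N ih =>
    intro x hx hxc
    by_cases ho : x % 2 = 1
    · exact ⟨0, x, by ring, ho, hxc⟩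
    · have hx0 : x ≠ 0 := fun h => h0 (h ▸ hxc)
      have h1 : T x = x / 2 := by
        unfold T
        rw [if_pos (by omega)]
      have h2 : x / 2 ∈ c := by
        rw [← h1]
        exact (cyc_per hc hxc).2 1
      obtain ⟨j, z, hj, hz, hzc⟩ := ih (x / 2) (by omega) h2
      refine ⟨j + 1, z, ?_, hz, hzc⟩
      rw [pow_succ]
      have : x = 2 * (x / 2) := by omega
      rw [this, hj]
      ring

theorem sum_geo (J : ℕ) : ∑ j ∈ range J, (1 : ℝ) / 2 ^ j ≤ 2 := by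
  have h : ∑ j ∈ range J, (1 : ℝ) / 2 ^ j = 2 - 2 / 2 ^ J := by
    induction J with
    | zero => simp
    | succ J ih =>
      rw [sum_range_succ, ih, pow_succ]
      field_simp
      ring
  rw [h]
  have : (0 : ℝ) < 2 / 2 ^ J := by positivity
  linarith

/-- the even elements weigh at most as much as the odd ones -/
theorem sum_odd {c : Finset ℤ} (hc : IsCycle (c : Set ℤ)) (h0 : (0 : ℤ) ∉ c) :
    ∑ x ∈ c, 1 / |(x : ℝ)| ≤ 2 * ∑ x ∈ c.filter (fun x => x % 2 = 1), 1 / |(x : ℝ)| := by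
  have h1 : ∀ x ∈ c, ∃ (j : ℕ) (z : ℤ), x = 2 ^ j * z ∧ z % 2 = 1 ∧ z ∈ c := fun x hx =>
    odd_part hc (by simpa using h0) x.natAbs x le_rfl (by simpa using hx)
  choose! j z h2 h3 h4 using h1
  obtain ⟨J, hJ⟩ : ∃ J : ℕ, ∀ x ∈ c, j x < J :=
    ⟨c.sup j + 1, fun x hx => Nat.lt_succ_of_le (Finset.le_sup hx)⟩
  have h5 : ∑ x ∈ c, 1 / |(x : ℝ)| = ∑ x ∈ c, 1 / 2 ^ (j x) * (1 / |((z x : ℤ) : ℝ)|) := by
    refine sum_congr rfl fun x hx => ?_
    have h6 : (x : ℝ) = 2 ^ (j x) * ((z x : ℤ) : ℝ) := by exact_mod_cast h2 x hx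
    rw [h6, abs_mul, abs_of_pos (by positivity : (0 : ℝ) < 2 ^ (j x))]
    by_cases hz : ((z x : ℤ) : ℝ) = 0
    · rw [hz]
      simp
    · field_simp
  have h7 : Set.InjOn (fun x => (z x, j x)) (c : Set ℤ) := by
    intro x hx y hy h
    simp only [Prod.mk.injEq] at h
    rw [h2 x hx, h2 y hy, h.1, h.2]
  have h8 : c.image (fun x => (z x, j x)) ⊆
      (c.filter (fun x => x % 2 = 1)) ×ˢ (range J) := by
    intro p hp
    obtain ⟨x, hx, rfl⟩ := mem_image.1 hp
    rw [mem_product, mem_filter, mem_range]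
    exact ⟨⟨h4 x hx, h3 x hx⟩, hJ x hx⟩
  have h9 : ∑ x ∈ c, 1 / 2 ^ (j x) * (1 / |((z x : ℤ) : ℝ)|) =
      ∑ p ∈ c.image (fun x => (z x, j x)), 1 / 2 ^ p.2 * (1 / |((p.1 : ℤ) : ℝ)|) := by
    rw [sum_image h7]
  rw [h5, h9]
  refine (sum_le_sum_of_subset_of_nonneg h8 fun p _ _ => by positivity).trans ?_
  rw [sum_product, mul_sum]
  refine sum_le_sum fun y _ => ?_
  show ∑ i ∈ range J, 1 / 2 ^ i * (1 / |(y : ℝ)|) ≤ 2 * (1 / |(y : ℝ)|)
  rw [← sum_mul]
  exact mul_le_mul_of_nonneg_right (sum_geo J) (by positivity)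

open Classical in
/-- **The basin of a cycle**: uniform lower bound. -/
theorem cyc_low : ∃ c1 : ℝ, 0 < c1 ∧ ∀ (s : ℤ) (c : Finset ℤ), (s = 1 ∨ s = -1) →
    IsCycle (c : Set ℤ) → (∀ m ∈ c, 0 < s * m) → ∃ X0 : ℕ, ∀ X : ℕ, X0 ≤ X →
      c1 * (∑ x ∈ c, 1 / |(x : ℝ)|) * X ≤
        (((Icc 1 X).filter (fun n : ℕ => s * (n : ℤ) ∈ Basin (c : Set ℤ))).card : ℝ) := by
  obtain ⟨D, hD, H⟩ := uni_all
  have hD0 : 0 < D := by linarith
  refine ⟨1 / (8 * D), by positivity, fun s c hs hc hsc => ?_⟩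
  have h0 : (0 : ℤ) ∉ c := fun h => by
    have := hsc 0 h
    simp at this
  obtain ⟨co, hco⟩ : ∃ co : Finset ℤ, co = c.filter (fun x => x % 2 = 1) := ⟨_, rfl⟩
  obtain ⟨X0, hX0⟩ := exists_nat_ge (∑ x ∈ co, D * |((3 * x + 1 : ℤ) : ℝ)|)
  refine ⟨X0, fun X hX => ?_⟩
  have hXX : ∑ x ∈ co, D * |((3 * x + 1 : ℤ) : ℝ)| ≤ X := hX0.trans (by exact_mod_cast hX)
  have hmem : ∀ x ∈ co, x ∈ c ∧ x % 2 = 1 := fun x hx => by
    rw [hco, mem_filter] at hx
    exact hx
  have hx0 : ∀ x ∈ co, D * |((3 * x + 1 : ℤ) : ℝ)| ≤ X := fun x hx =>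
    (single_le_sum (f := fun x : ℤ => D * |((3 * x + 1 : ℤ) : ℝ)|)
      (fun y _ => by positivity) hx).trans hXX
  have hper : ∀ x ∈ co, Per x := fun x hx => (cyc_per hc (by
    simpa using (hmem x hx).1)).1
  -- the count
  have hU : (co.biUnion (fun x => pre (3 * x + 1) X)).card =
      ∑ x ∈ co, (pre (3 * x + 1) X).card := by
    apply card_biUnion
    intro x hx y hy hxy
    exact side_disj (hper x hx) (hmem x hx).2 (hper y hy) (hmem y hy).2 hxy X
  have h1 := card_sign hs X (co.biUnion (fun x => pre (3 * x + 1) X))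
    (fun n : ℕ => s * (n : ℤ) ∈ Basin (c : Set ℤ)) (by
      intro n hn
      obtain ⟨x, hx, hn⟩ := mem_biUnion.1 hn
      rw [mem_pre] at hn
      obtain ⟨h2, k, h3⟩ := hn
      have h4 : T^[k + 1] n ∈ (c : Set ℤ) := by
        rw [Function.iterate_succ_apply', h3, side_T (hmem x hx).2]
        exact (cyc_per hc (by simpa using (hmem x hx).1)).2 1
      have h5 : 0 < s * n := sign_back (k := k + 1) hs (hsc _ (by simpa using h4))
      refine ⟨h2, h5, k + 1, ?_⟩
      have h8 : s * (((s * n).toNat : ℕ) : ℤ) = n := by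
        rw [Int.toNat_of_nonneg h5.le]
        rcases hs with rfl | rfl <;> ring
      rw [h8]
      exact h4)
  rw [hU] at h1
  have h2 : ∑ x ∈ co, (X : ℝ) / (D * |((3 * x + 1 : ℤ) : ℝ)|) ≤
      ∑ x ∈ co, ((pre (3 * x + 1) X).card : ℝ) := sum_le_sum fun x hx =>
    H (3 * x + 1) (by omega) X (hx0 x hx)
  have h3 : ((∑ x ∈ co, (pre (3 * x + 1) X).card : ℕ) : ℝ) ≤
      (((Icc 1 X).filter (fun n : ℕ => s * (n : ℤ) ∈ Basin (c : Set ℤ))).card : ℝ) := by
    exact_mod_cast h1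
  push_cast at h3
  refine le_trans ?_ (h2.trans h3)
  have h4 := sum_odd hc h0
  rw [← hco] at h4
  have h5 : ∀ x ∈ co, 1 / (4 * D) * (1 / |(x : ℝ)|) * X ≤ (X : ℝ) / (D * |((3 * x + 1 : ℤ) : ℝ)|) := by
    intro x hx
    have h6 : 1 ≤ |x| := Int.one_le_abs (fun h => h0 (h ▸ (hmem x hx).1))
    have h7 : |3 * x + 1| ≤ 4 * |x| := by
      refine (abs_add_le _ _).trans ?_
      rw [abs_mul, abs_of_pos (by norm_num : (0 : ℤ) < 3), abs_one]
      linarith
    have h8 : 1 ≤ |3 * x + 1| := Int.one_le_abs (by omega)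
    have h6' : (1 : ℝ) ≤ |(x : ℝ)| := by exact_mod_cast h6
    have h7' : |((3 * x + 1 : ℤ) : ℝ)| ≤ 4 * |(x : ℝ)| := by exact_mod_cast h7
    have h8' : (1 : ℝ) ≤ |((3 * x + 1 : ℤ) : ℝ)| := by exact_mod_cast h8
    have h9 : 1 / (4 * D) * (1 / |(x : ℝ)|) * X = (X : ℝ) / (D * (4 * |(x : ℝ)|)) := by
      field_simp
    rw [h9]
    exact div_le_div_of_nonneg_left (by positivity) (by positivity)
      (mul_le_mul_of_nonneg_left h7' hD0.le)
  refine le_trans ?_ (sum_le_sum h5)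
  rw [← sum_mul, ← mul_sum]
  apply mul_le_mul_of_nonneg_right _ (by positivity)
  have h6 : 1 / (4 * D) = 1 / (8 * D) * 2 := by
    field_simp
    norm_num
  rw [h6, mul_assoc]
  exact mul_le_mul_of_nonneg_left h4 (by positivity)

/-! ## the lengths -/

theorem cyc_inj {c : Finset ℤ} (hc : IsCycle (c : Set ℤ)) : c.image T = c := by
  have h1 : c.image T ⊆ c := by
    intro y hy
    obtain ⟨x, hx, rfl⟩ := mem_image.1 hy
    have := (cyc_per hc (by simpa using hx)).2 1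
    simpa using this
  refine eq_of_subset_of_card_le h1 (le_of_eq ?_)
  rw [card_image_of_injOn]
  intro x hx y hy h
  exact Per_inj (cyc_per hc hx).1 (cyc_per hc hy).1 h

/-- `K log 2 - L log 3 = ∑ log (1 + 1 / (3 x))` over the odd elements -/
theorem cyc_eq {c : Finset ℤ} (hc : IsCycle (c : Set ℤ)) (h0 : (0 : ℤ) ∉ c) :
    (c.card : ℝ) * Real.log 2 - ((c.filter (fun x => x % 2 = 1)).card : ℝ) * Real.log 3 =
      ∑ x ∈ c.filter (fun x => x % 2 = 1), Real.log (1 + 1 / (3 * (x : ℝ))) := by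
  have hne : ∀ x ∈ c, (x : ℝ) ≠ 0 := fun x hx h => h0 (by
    have : x = 0 := by exact_mod_cast h
    rw [← this]; exact hx)
  have h1 : ∑ x ∈ c, Real.log |((T x : ℤ) : ℝ)| = ∑ x ∈ c, Real.log |(x : ℝ)| := by
    conv_rhs => rw [← cyc_inj hc]
    rw [sum_image]
    intro x hx y hy h
    exact Per_inj (cyc_per hc hx).1 (cyc_per hc hy).1 h
  have h2 : ∀ x ∈ c, Real.log 2 + Real.log |((T x : ℤ) : ℝ)| - Real.log |(x : ℝ)| =
      if x % 2 = 1 then Real.log 3 + Real.log (1 + 1 / (3 * (x : ℝ))) else 0 := by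
    intro x hx
    have hx0 := hne x hx
    have hxz : x ≠ 0 := by
      intro h
      apply hx0
      rw [h]
      simp
    split_ifs with ho
    · have h3 : 2 * T x = 3 * x + 1 := by
        unfold T
        rw [if_neg (by omega)]
        omega
      have h4 : 2 * ((T x : ℤ) : ℝ) = 3 * (x : ℝ) + 1 := by exact_mod_cast h3
      have h5 : 3 * (x : ℝ) + 1 = 3 * x * (1 + 1 / (3 * x)) := by
        field_simp
      have h6 : 0 < 1 + 1 / (3 * (x : ℝ)) := by
        have h7 : (1 : ℝ) ≤ |(x : ℝ)| := by exact_mod_cast Int.one_le_abs hxz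
        have h8 : |1 / (3 * (x : ℝ))| ≤ 1 / 3 := by
          rw [abs_div, abs_one, abs_mul, abs_of_pos (by norm_num : (0 : ℝ) < 3)]
          apply div_le_div_of_nonneg_left (by norm_num) (by norm_num)
          linarith
        linarith [(abs_le.1 h8).1]
      have h7 : ((T x : ℤ) : ℝ) ≠ 0 := by
        intro h
        rw [h, mul_zero] at h4
        have h8 : 3 * x + 1 = 0 := by exact_mod_cast h4.symm
        omega
      have h8 : Real.log 2 + Real.log |((T x : ℤ) : ℝ)| = Real.log |3 * (x : ℝ) + 1| := by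
        rw [← h4, abs_mul, abs_of_pos (by norm_num : (0 : ℝ) < 2), Real.log_mul (by norm_num)
          (abs_ne_zero.2 h7)]
      rw [h8, h5, abs_mul, abs_mul, abs_of_pos (by norm_num : (0 : ℝ) < 3), abs_of_pos h6,
        Real.log_mul (by positivity) h6.ne', Real.log_mul (by norm_num) (abs_ne_zero.2 hx0)]
      ring
    · have h3 : 2 * T x = x := by
        unfold T
        rw [if_pos (by omega)]
        omega
      have h4 : 2 * ((T x : ℤ) : ℝ) = (x : ℝ) := by exact_mod_cast h3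
      have h7 : ((T x : ℤ) : ℝ) ≠ 0 := by
        intro h
        rw [h, mul_zero] at h4
        exact hx0 h4.symm
      rw [← h4, abs_mul, abs_of_pos (by norm_num : (0 : ℝ) < 2), Real.log_mul (by norm_num)
          (abs_ne_zero.2 h7)]
      ring
  have h3 := sum_congr rfl h2
  rw [sum_sub_distrib, sum_add_distrib, h1, sum_const, nsmul_eq_mul, ← sum_filter,
    sum_add_distrib, sum_const, nsmul_eq_mul] at h3
  linarith

/-- `|K log 2 - L log 3| ≤ ∑ x ∈ c, 1 / |x|` -/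
theorem cyc_log {c : Finset ℤ} (hc : IsCycle (c : Set ℤ)) (h0 : (0 : ℤ) ∉ c) :
    |(c.card : ℝ) * Real.log 2 - ((c.filter (fun x => x % 2 = 1)).card : ℝ) * Real.log 3| ≤
      ∑ x ∈ c, 1 / |(x : ℝ)| := by
  rw [cyc_eq hc h0]
  refine (abs_sum_le_sum_abs _ _).trans ?_
  refine le_trans (sum_le_sum fun x hx => ?_) (sum_le_sum_of_subset_of_nonneg
    (filter_subset _ _) fun x _ _ => by positivity)
  obtain ⟨hxc, ho⟩ := mem_filter.1 hx
  have hxz : x ≠ 0 := fun h => h0 (h ▸ hxc)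
  have h7 : (1 : ℝ) ≤ |(x : ℝ)| := by exact_mod_cast Int.one_le_abs hxz
  obtain ⟨u, hu⟩ : ∃ u : ℝ, u = 1 / (3 * (x : ℝ)) := ⟨_, rfl⟩
  have hu1 : |u| = 1 / (3 * |(x : ℝ)|) := by
    rw [hu, abs_div, abs_one, abs_mul, abs_of_pos (by norm_num : (0 : ℝ) < 3)]
  have hu2 : |u| ≤ 1 / 3 := by
    rw [hu1]
    apply div_le_div_of_nonneg_left (by norm_num) (by norm_num)
    linarith
  have hu3 : 3 * |u| = 1 / |(x : ℝ)| := by
    rw [hu1]
    field_simp
  rw [← hu, ← hu3]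
  obtain ⟨h8, h9⟩ := abs_le.1 hu2
  have h10 : 0 < 1 + u := by linarith
  have h11 := Real.log_le_sub_one_of_pos h10
  have h12 := Real.one_sub_inv_le_log_of_pos h10
  rw [abs_le]
  have h13 := le_abs_self u
  have h14 := neg_abs_le u
  have h15 := abs_nonneg u
  constructor
  · refine le_trans ?_ h12
    have h16 : 1 - (1 + u)⁻¹ = u / (1 + u) := by
      field_simp
      ring
    rw [h16, le_div_iff₀ h10]
    rcases le_total 0 u with h | h
    · nlinarith
    · rw [abs_of_nonpos h]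
      nlinarith
  · linarith

end Pool.Agent.helper31.UNI
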