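import Pool.Agent.helper4.BAS.Uni
import Pool.Agent.helper4.BAS.Tit
import Pool.Agent.helper82.PD.PrimG
import Pool.Agent.helper82.PD.Rul
import Pool.Agent.helper49.PDR.Strip
import Pool.Agent.helper49.PDR.Sb

/-!
# The uniform lower bound for the predecessor sets of the 3x+1 map on the integers

There is an absolute `D` such that for every nonzero integer `m` not divisible by `3` and every `X ≥ D |m|` at
least `X / (D |m|)` integers `n` with `|n| ≤ X` have `m` in their trajectory.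
-/

namespace Pool.Agent.helper31.UNI

open Finset Pool.Agent.helper14.EX1 Pool.Agent.helper49.PDR Pool.Agent.helper4.BAS

/-- the size of the end of a word in the strip -/
theorem Uni_size {x : ℤ} {w : List ℕ} {i0 : ℕ} {Y : ℝ} (ha : Ala x w)
    (hg : |(Gw w : ℝ)| ≤ 8 * 2 ^ i0 * 2 ^ w.sum) (hY : 1 ≤ Y)
    (hs : (2 : ℝ) ^ w.sum < 2 * Y * 3 ^ w.length) :
    |((3 * nd x w + 2 : ℤ) : ℝ)| ≤ Y * (6 * |(x : ℝ)| + 48 * 2 ^ i0 + 2) := by
  have h1 := nd_eq ha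
  have h2 : (3 : ℝ) ^ w.length * (nd x w : ℝ) = 2 ^ w.sum * (x : ℝ) + (Gw w : ℝ) := by
    exact_mod_cast h1
  have h3 : (0 : ℝ) < 3 ^ w.length := by positivity
  have h4 : (0 : ℝ) < 2 ^ w.sum := by positivity
  have h5 : (3 : ℝ) ^ w.length * |(nd x w : ℝ)| ≤ 2 ^ w.sum * (|(x : ℝ)| + 8 * 2 ^ i0) := by
    have e1 : (3 : ℝ) ^ w.length * |(nd x w : ℝ)| = |(3 : ℝ) ^ w.length * (nd x w : ℝ)| := by
      rw [abs_mul, abs_of_pos h3]
    rw [e1, h2]
    refine (abs_add_le _ _).trans ?_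
    rw [abs_mul, abs_of_pos h4]
    linarith
  have h6 : 0 ≤ |(x : ℝ)| + 8 * 2 ^ i0 := by positivity
  have h7 : (3 : ℝ) ^ w.length * |(nd x w : ℝ)| ≤
      3 ^ w.length * (2 * Y * (|(x : ℝ)| + 8 * 2 ^ i0)) := by
    refine h5.trans ?_
    calc (2 : ℝ) ^ w.sum * (|(x : ℝ)| + 8 * 2 ^ i0) ≤
          (2 * Y * 3 ^ w.length) * (|(x : ℝ)| + 8 * 2 ^ i0) :=
        mul_le_mul_of_nonneg_right hs.le h6
      _ = 3 ^ w.length * (2 * Y * (|(x : ℝ)| + 8 * 2 ^ i0)) := by ring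
  have h8 : |(nd x w : ℝ)| ≤ 2 * Y * (|(x : ℝ)| + 8 * 2 ^ i0) := le_of_mul_le_mul_left h7 h3
  have h9 : |((3 * nd x w + 2 : ℤ) : ℝ)| ≤ 3 * |(nd x w : ℝ)| + 2 := by
    push_cast
    refine (abs_add_le _ _).trans ?_
    rw [abs_mul, abs_of_pos (by norm_num : (0 : ℝ) < 3), abs_of_pos (by norm_num : (0 : ℝ) < 2)]
  nlinarith

/-- the weight of a word in the strip -/
theorem Uni_ww {w : List ℕ} {Y : ℝ} (hY : 0 < Y) (hs : Y * 3 ^ w.length ≤ (2 : ℝ) ^ w.sum) :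
    ww w ≤ 1 / Y := by
  unfold ww
  rw [div_le_div_iff₀ (by positivity) hY]
  linarith

/-- The class and the constants do not depend on the root. -/
theorem uni_root : ∃ (n0 : ℕ) (r : ℤ) (D : ℝ), 1 ≤ D ∧ ∀ x : ℤ, (3 : ℤ) ^ n0 ∣ x - r →
    ¬ (4 : ℤ) ∣ 3 * x + 2 →
    (∀ u : List ℕ, u ≠ [] → (∀ k ∈ u, 1 ≤ k) → Ala x u → nd x u ≠ x) →
    ∀ X : ℕ, D * (|(x : ℝ)| + 1) ≤ X → ∃ B : Finset ℤ, X / (D * (|(x : ℝ)| + 1)) ≤ B.card ∧
      ∀ n ∈ B, |n| ≤ X ∧ ∃ k : ℕ, T^[k] n = 3 * x + 2 := by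
  obtain ⟨C, ρ, hC, hρ, hρ1, R, -⟩ := Pool.Agent.helper82.PD.exists_rule (e := 1 / 100)
    (by norm_num) le_rfl
  obtain ⟨i0, n0, -, r, X1, hX1, H⟩ := strip_mass hC hρ hρ1 R
  obtain ⟨M', hM'⟩ : ∃ M' : ℝ, M' = 48 * 2 ^ i0 + 6 := ⟨_, rfl⟩
  have hM'0 : 6 ≤ M' := by
    rw [hM']
    have : (0 : ℝ) < 2 ^ i0 := by positivity
    linarith
  refine ⟨n0, r, 16 * X1 * M', by nlinarith, fun x hx h4 hper X hX => ?_⟩
  obtain ⟨u, hu⟩ : ∃ u : ℝ, u = |(x : ℝ)| + 1 := ⟨_, rfl⟩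
  have hu1 : 1 ≤ u := by
    rw [hu]
    linarith [abs_nonneg (x : ℝ)]
  rw [← hu] at hX ⊢
  obtain ⟨Y, hY⟩ : ∃ Y : ℝ, Y = (X : ℝ) / (M' * u) := ⟨_, rfl⟩
  have hMu : 0 < M' * u := by positivity
  have hX10 : 0 < X1 := by linarith
  have hXX : X1 * (M' * u) ≤ X := by
    refine le_trans ?_ hX
    have : 0 ≤ X1 * (M' * u) := by positivity
    nlinarith
  have hYX : X1 ≤ Y := by
    rw [hY, le_div_iff₀ hMu]
    exact hXX
  have hY1 : 1 ≤ Y := hX1.trans hYX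
  have hY0 : 0 < Y := by linarith
  have hYM : Y * (M' * u) = X := by
    rw [hY]
    field_simp
  obtain ⟨W, hW, hsum⟩ := H x hx Y hYX
  have hinj : Set.InjOn (fun w => 3 * nd x w + 2) (W : Set (List ℕ)) := by
    intro v hv w hw h
    obtain ⟨-, v1, v2, -, -⟩ := hW v (Finset.mem_coe.1 hv)
    obtain ⟨-, w1, w2, -, -⟩ := hW w (Finset.mem_coe.1 hw)
    have h' : 3 * nd x v + 2 = 3 * nd x w + 2 := h
    exact dst h4 hper v1 w1 v2 w2 (by linarith)
  refine ⟨W.image (fun w => 3 * nd x w + 2), ?_, ?_⟩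
  · rw [Finset.card_image_of_injOn hinj]
    have h1 : ∑ w ∈ W, ww w ≤ ∑ _w ∈ W, 1 / Y :=
      sum_le_sum fun w hw => Uni_ww hY0 (hW w hw).2.2.2.2.1
    rw [sum_const, nsmul_eq_mul] at h1
    have h2 : 1 / 16 ≤ (W.card : ℝ) * (1 / Y) := hsum.trans h1
    have h3 : (X : ℝ) / (16 * X1 * M' * u) ≤ Y * (1 / 16) := by
      rw [div_le_iff₀ (by positivity), ← hYM]
      have h4 : 0 ≤ Y * (M' * u) := by positivity
      nlinarith
    refine h3.trans ?_
    calc Y * (1 / 16) ≤ Y * ((W.card : ℝ) * (1 / Y)) := mul_le_mul_of_nonneg_left h2 hY0.le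
      _ = (W.card : ℝ) := by field_simp
  · intro n hn
    obtain ⟨w, hw, rfl⟩ := mem_image.1 hn
    obtain ⟨-, h1, h2, h3, h5⟩ := hW w hw
    refine ⟨?_, w.sum, T_word h1 h2⟩
    have h6 := Uni_size h2 (gw_bound R i0 h1 h3) hY1 h5.2
    have h7 : 6 * |(x : ℝ)| + 48 * 2 ^ i0 + 2 ≤ M' * u := by
      rw [hM', hu]
      have h8 : (0 : ℝ) < 2 ^ i0 := by positivity
      have h9 : 0 ≤ |(x : ℝ)| := abs_nonneg _
      have h10 : 0 ≤ |(x : ℝ)| * 2 ^ i0 := by positivity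
      nlinarith
    have h8 : |((3 * nd x w + 2 : ℤ) : ℝ)| ≤ X := by
      rw [← hYM]
      exact h6.trans (mul_le_mul_of_nonneg_left h7 hY0.le)
    exact_mod_cast h8

/-! ## a bounded letter to the class -/

theorem Uni_surj (n : ℕ) {β : ℤ} (hβ : ¬ (3 : ℤ) ∣ β) (a z : ZMod (3 ^ n)) :
    ∃ i, i < 3 ^ n ∧ (Cyc_aff n 64 β)^[i] a = z := by
  have hinj : Set.InjOn (fun i => (Cyc_aff n 64 β)^[i] 0) (range (3 ^ n) : Set ℕ) := by
    intro a ha b hb h
    rw [Finset.mem_coe, mem_range] at ha hb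
    rcases le_total a b with h' | h'
    · exact Cyc_aff_orbit_inj n 64 β (by norm_num) hβ h' hb h
    · exact (Cyc_aff_orbit_inj n 64 β (by norm_num) hβ h' ha h.symm).symm
  have himg : (range (3 ^ n)).image (fun i => (Cyc_aff n 64 β)^[i] 0) = Finset.univ := by
    apply Finset.eq_univ_of_card
    rw [Finset.card_image_of_injOn hinj, card_range, ZMod.card]
  obtain ⟨b, -, hb⟩ := mem_image.1 (by rw [himg]; exact mem_univ a :
    a ∈ (range (3 ^ n)).image (fun i => (Cyc_aff n 64 β)^[i] 0))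
  have hinj1 : Function.Injective (Cyc_aff n 64 β) := by
    have hs : Function.Surjective (Cyc_aff n 64 β) := by
      intro z
      have h64 : IsUnit ((64 : ℤ) : ZMod (3 ^ n)) := by
        rw [show ((64 : ℤ) : ZMod (3 ^ n)) = ((64 : ℕ) : ZMod (3 ^ n)) by norm_num]
        rw [ZMod.isUnit_iff_coprime]
        exact Nat.Coprime.pow_right n (by norm_num)
      obtain ⟨u, hu⟩ := h64
      refine ⟨(↑u⁻¹ : ZMod (3 ^ n)) * (z - ((β : ℤ) : ZMod (3 ^ n))), ?_⟩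
      unfold Cyc_aff
      rw [← hu, ← mul_assoc, Units.mul_inv, one_mul]
      ring
    exact Finite.injective_iff_surjective.2 hs
  have hinjO : Set.InjOn (fun i => (Cyc_aff n 64 β)^[i] a) (range (3 ^ n) : Set ℕ) := by
    intro i hi j hj h
    have h' : (Cyc_aff n 64 β)^[i] ((Cyc_aff n 64 β)^[b] 0) =
        (Cyc_aff n 64 β)^[j] ((Cyc_aff n 64 β)^[b] 0) := by
      have hb' : (Cyc_aff n 64 β)^[b] 0 = a := hb
      rw [hb']
      exact h
    rw [← Function.iterate_add_apply, ← Function.iterate_add_apply, add_comm i, add_comm j,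
      Function.iterate_add_apply, Function.iterate_add_apply] at h'
    exact hinj hi hj (hinj1.iterate b h')
  have himgO : (range (3 ^ n)).image (fun i => (Cyc_aff n 64 β)^[i] a) = Finset.univ := by
    apply Finset.eq_univ_of_card
    rw [Finset.card_image_of_injOn hinjO, card_range, ZMod.card]
  obtain ⟨i, hi0, hi⟩ := mem_image.1 (by rw [himgO]; exact mem_univ z :
    z ∈ (range (3 ^ n)).image (fun i => (Cyc_aff n 64 β)^[i] a))
  exact ⟨i, mem_range.1 hi0, hi⟩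

/-- From every node every class modulo `3 ^ n` is reached by one bounded letter. -/
theorem Uni_prim (n : ℕ) (r : ℤ) (z : ℤ) :
    ∃ k : ℕ, 2 ≤ k ∧ k ≤ 7 + 6 * 3 ^ n ∧ Al k z ∧ (3 : ℤ) ^ n ∣ Tk k z - r := by
  obtain ⟨k0, hk0, hk7, hal⟩ : ∃ k : ℕ, 2 ≤ k ∧ k ≤ 7 ∧ Al k z := by
    have h3 : z % 3 = 0 ∨ z % 3 = 1 ∨ z % 3 = 2 := by omega
    rcases h3 with h | h | h
    · exact ⟨3, by norm_num, by norm_num, (al_zero h).2⟩
    · exact ⟨5, by norm_num, by norm_num, (al_one h).2⟩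
    · exact ⟨7, by norm_num, by norm_num, (al_two h).2.2⟩
  set c : ℤ := if k0 % 2 = 1 then 1 else 2 with hc
  set β : ℤ := 42 + 7 * c with hβ
  have hβ3 : ¬ (3 : ℤ) ∣ β := by
    have : c = 1 ∨ c = 2 := by
      rw [hc]
      split_ifs <;> simp
    rcases this with h | h <;> rw [hβ, h] <;> norm_num
  have hall : ∀ i : ℕ, Al (k0 + 6 * i) z := by
    intro i
    induction i with
    | zero => exact hal
    | succ i ih => exact (Pool.Agent.helper82.PD.PrimG_six (by omega) ih).1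
  have hstep : ∀ i : ℕ, Tk (k0 + 6 * (i + 1)) z = 64 * Tk (k0 + 6 * i) z + β := by
    intro i
    have h1 := (Pool.Agent.helper82.PD.PrimG_six (k := k0 + 6 * i) (by omega) (hall i)).2
    have h2 : (k0 + 6 * i) % 2 = k0 % 2 := by omega
    rw [h2, ← hc] at h1
    exact h1
  have horb : ∀ i : ℕ, (Cyc_aff n 64 β)^[i] ((Tk k0 z : ℤ) : ZMod (3 ^ n)) =
      ((Tk (k0 + 6 * i) z : ℤ) : ZMod (3 ^ n)) := by
    intro i
    induction i with
    | zero => rfl
    | succ i ih =>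
      rw [Function.iterate_succ_apply', ih, hstep, Cyc_aff]
      push_cast
      ring
  obtain ⟨i, hi0, hi⟩ := Uni_surj n hβ3 ((Tk k0 z : ℤ) : ZMod (3 ^ n)) ((r : ℤ) : ZMod (3 ^ n))
  refine ⟨k0 + 6 * i, by omega, by omega, hall _, ?_⟩
  rw [horb i] at hi
  have h6 := (ZMod.intCast_eq_intCast_iff_dvd_sub _ _ _).1 hi.symm
  exact_mod_cast h6

/-! ## periodic points -/

/-- `m` is periodic -/
def Per (m : ℤ) : Prop := ∃ k : ℕ, 1 ≤ k ∧ T^[k] m = m

theorem Per_inj {a b : ℤ} (ha : Per a) (hb : Per b) (h : T a = T b) : a = b := by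
  obtain ⟨p, hp, hpa⟩ := ha
  obtain ⟨q, hq, hqb⟩ := hb
  have h1 : T^[p * q] a = a := by
    rw [Function.iterate_mul]
    exact Function.iterate_fixed hpa _
  have h2 : T^[p * q] b = b := by
    rw [mul_comm, Function.iterate_mul]
    exact Function.iterate_fixed hqb _
  have h3 : p * q = (p * q - 1) + 1 := by
    have : 1 ≤ p * q := Nat.mul_pos hp hq
    omega
  rw [h3, Function.iterate_succ_apply] at h1 h2
  rw [← h1, ← h2, h]

theorem Per_iter {a : ℤ} (ha : Per a) (j : ℕ) : Per (T^[j] a) := by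
  obtain ⟨p, hp, hpa⟩ := ha
  refine ⟨p, hp, ?_⟩
  rw [← Function.iterate_add_apply, add_comm, Function.iterate_add_apply, hpa]

theorem Per_T {a : ℤ} (ha : Per a) : Per (T a) := Per_iter ha 1

/-- the trajectory of a periodic point returns -/
theorem Per_ret {a : ℤ} (ha : Per a) (j : ℕ) : ∃ i : ℕ, T^[i] (T^[j] a) = a := by
  obtain ⟨p, hp, hpa⟩ := ha
  have h1 : T^[p * j] a = a := by
    rw [Function.iterate_mul]
    exact Function.iterate_fixed hpa _
  have h2 : j ≤ p * j := Nat.le_mul_of_pos_left _ hp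
  refine ⟨p * j - j, ?_⟩
  rw [← Function.iterate_add_apply]
  have h3 : p * j - j + j = p * j := by omega
  rw [h3, h1]

/-! ## nonperiodic targets -/

open Classical in
/-- the predecessors of `m` in `[-X, X]` -/
noncomputable def pre (m : ℤ) (X : ℕ) : Finset ℤ :=
  (Icc (-(X : ℤ)) X).filter (fun n => ∃ k : ℕ, T^[k] n = m)

theorem mem_pre {m n : ℤ} {X : ℕ} : n ∈ pre m X ↔ |n| ≤ X ∧ ∃ k : ℕ, T^[k] n = m := by
  classical
  unfold pre
  rw [mem_filter, mem_Icc, abs_le]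

theorem uni_np : ∃ D : ℝ, 1 ≤ D ∧ ∀ m : ℤ, ¬ (3 : ℤ) ∣ m → ¬ Per m → ∀ X : ℕ,
    D * |(m : ℝ)| ≤ X → X / (D * |(m : ℝ)|) ≤ ((pre m X).card : ℝ) := by
  obtain ⟨n0, r, D, hD, H⟩ := uni_root
  obtain ⟨K, hK⟩ : ∃ K : ℕ, K = 7 + 6 * 3 ^ n0 := ⟨_, rfl⟩
  refine ⟨D * (3 * 2 ^ K), ?_, fun m h3 hp X hX => ?_⟩
  · have : (1 : ℝ) ≤ 2 ^ K := one_le_pow₀ (by norm_num)
    nlinarith
  obtain ⟨z, j, hz, hzm⟩ : ∃ (z : ℤ) (j : ℕ), T^[j] (3 * z + 2) = m ∧ |3 * z + 2| ≤ 2 * |m| := by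
    have h4 : m % 3 = 1 ∨ m % 3 = 2 := by omega
    rcases h4 with h4 | h4
    · refine ⟨(2 * m - 2) / 3, 1, ?_, ?_⟩
      · have h5 : 3 * ((2 * m - 2) / 3) + 2 = 2 ^ 1 * m := by omega
        rw [h5, T_two_pow]
      · have h5 : 3 * ((2 * m - 2) / 3) + 2 = 2 * m := by omega
        rw [h5, abs_mul, abs_of_pos (by norm_num : (0 : ℤ) < 2)]
    · refine ⟨(m - 2) / 3, 0, ?_, ?_⟩
      · have h5 : 3 * ((m - 2) / 3) + 2 = m := by omega
        rw [h5]
        rfl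
      · have h5 : 3 * ((m - 2) / 3) + 2 = m := by omega
        rw [h5]
        linarith [abs_nonneg m]
  have hm0 : m ≠ 0 := fun h => h3 (by rw [h]; exact dvd_zero _)
  have hm1 : 1 ≤ |m| := Int.one_le_abs hm0
  obtain ⟨k, hk2, hkK, hal, hcl⟩ := Uni_prim n0 r z
  rw [← hK] at hkK
  obtain ⟨x, hx⟩ : ∃ x : ℤ, x = Tk k z := ⟨_, rfl⟩
  rw [← hx] at hcl
  have hnode : 3 * (3 * x + 2) = 2 ^ k * (3 * z + 2) - (if k % 2 = 1 then 1 else 2) := by
    rw [hx]
    exact Tk_node (by omega) hal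
  have hTk : T^[k] (3 * x + 2) = 3 * z + 2 := by
    rw [hx]
    exact T_letter (by omega) hal
  have hlead : T^[j + k] (3 * x + 2) = m := by
    rw [Function.iterate_add_apply, hTk]
    exact hz
  have h4 : ¬ (4 : ℤ) ∣ 3 * x + 2 := by
    obtain ⟨d, hd⟩ := Nat.exists_eq_add_of_le hk2
    have h5 : (2 : ℤ) ^ k * (3 * z + 2) = 4 * (2 ^ d * (3 * z + 2)) := by
      rw [hd, pow_add]
      ring
    rw [h5] at hnode
    intro h6
    obtain ⟨y, hy⟩ := h6
    rw [hy] at hnode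
    split_ifs at hnode <;> omega
  have hper : ∀ u : List ℕ, u ≠ [] → (∀ k ∈ u, 1 ≤ k) → Ala x u → nd x u ≠ x := by
    intro u hu hu1 hau he
    apply hp
    have h5 := T_word hu1 hau
    rw [he] at h5
    have hs : 1 ≤ u.sum := by
      have h6 := Sb_len_le_sum hu1
      have h7 : 0 < u.length := List.length_pos_iff.2 hu
      omega
    rw [← hlead]
    exact Per_iter ⟨u.sum, hs, h5⟩ _
  -- the size of `x`
  have hxm : |x| + 1 ≤ 3 * 2 ^ K * |m| := by
    have h5 : |3 * (3 * x + 2)| ≤ 2 ^ k * (2 * |m|) + 2 := by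
      rw [hnode]
      refine (abs_sub _ _).trans ?_
      rw [abs_mul, abs_of_pos (by positivity : (0 : ℤ) < 2 ^ k)]
      have h6 : (2 : ℤ) ^ k * |3 * z + 2| ≤ 2 ^ k * (2 * |m|) :=
        mul_le_mul_of_nonneg_left hzm (by positivity)
      have h7 : |(if k % 2 = 1 then (1 : ℤ) else 2)| ≤ 2 := by
        split_ifs <;> norm_num
      linarith
    have h6 : (2 : ℤ) ^ k ≤ 2 ^ K := pow_le_pow_right₀ (by norm_num) hkK
    have h7 : (2 : ℤ) ^ k * (2 * |m|) ≤ 2 ^ K * (2 * |m|) :=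
      mul_le_mul_of_nonneg_right h6 (by positivity)
    have h8 : 9 * |x| ≤ |3 * (3 * x + 2)| + 6 := by
      have h9 : 9 * x = 3 * (3 * x + 2) - 6 := by ring
      have h10 : 9 * |x| = |9 * x| := by rw [abs_mul, abs_of_pos (by norm_num : (0 : ℤ) < 9)]
      rw [h10, h9]
      refine (abs_sub _ _).trans ?_
      norm_num
    have h9 : (1 : ℤ) ≤ 2 ^ K := one_le_pow₀ (by norm_num)
    have h10 : 1 * 1 ≤ 2 ^ K * |m| := mul_le_mul h9 hm1 (by norm_num) (by positivity)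
    nlinarith
  have hxm' : |(x : ℝ)| + 1 ≤ 3 * 2 ^ K * |(m : ℝ)| := by exact_mod_cast hxm
  have hD0 : 0 < D := by linarith
  have hx1 : 0 < |(x : ℝ)| + 1 := by
    have := abs_nonneg (x : ℝ)
    linarith
  have hX' : D * (|(x : ℝ)| + 1) ≤ X := by
    refine le_trans ?_ hX
    rw [mul_assoc]
    exact mul_le_mul_of_nonneg_left hxm' hD0.le
  obtain ⟨B, hB1, hB2⟩ := H x hcl h4 hper X hX'
  have h5 : (X : ℝ) / (D * (3 * 2 ^ K) * |(m : ℝ)|) ≤ X / (D * (|(x : ℝ)| + 1)) := by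
    apply div_le_div_of_nonneg_left (by positivity) (by positivity)
    rw [mul_assoc]
    exact mul_le_mul_of_nonneg_left hxm' hD0.le
  refine (h5.trans hB1).trans ?_
  have hsub : B ⊆ pre m X := by
    intro n hn
    obtain ⟨h6, i, h7⟩ := hB2 n hn
    rw [mem_pre]
    refine ⟨h6, (j + k) + i, ?_⟩
    rw [Function.iterate_add_apply, h7, hlead]
  exact_mod_cast Finset.card_le_card hsub

/-- a nonperiodic predecessor of bounded size -/
theorem Uni_side {m : ℤ} (h3 : ¬ (3 : ℤ) ∣ m) : ∃ (m' : ℤ) (j : ℕ), T^[j] m' = m ∧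
    ¬ (3 : ℤ) ∣ m' ∧ ¬ Per m' ∧ |m'| ≤ 16 * |m| := by
  obtain ⟨m1, j, hj, h13, h1m⟩ : ∃ (m1 : ℤ) (j : ℕ), T^[j] m1 = m ∧ m1 % 3 = 2 ∧
      |m1| ≤ 2 * |m| := by
    have h4 : m % 3 = 1 ∨ m % 3 = 2 := by omega
    rcases h4 with h4 | h4
    · refine ⟨2 * m, 1, ?_, by omega, ?_⟩
      · have := T_two_pow 1 m
        rwa [pow_one] at this
      · rw [abs_mul, abs_of_pos (by norm_num : (0 : ℤ) < 2)]
    · exact ⟨m, 0, rfl, h4, by linarith [abs_nonneg m]⟩
  have habs : ∀ a : ℤ, |a * m1| = |a| * |m1| := fun a => abs_mul _ _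
  have hn := abs_nonneg m1
  by_cases hp1 : Per (2 * m1)
  · -- the odd child of `m1`
    obtain ⟨u, hu⟩ : ∃ u : ℤ, 3 * u + 1 = 2 * m1 := ⟨(2 * m1 - 1) / 3, by omega⟩
    have hTu : T u = m1 := Tit_odd hu
    have hup : ¬ Per u := by
      intro h
      have h1 := Per_inj h hp1 (by rw [hTu, Tit_two])
      omega
    by_cases hu3 : (3 : ℤ) ∣ u
    · by_cases hp2 : Per (2 * (4 * m1))
      · obtain ⟨v, hv⟩ : ∃ v : ℤ, 3 * v + 1 = 2 * (4 * m1) := ⟨(2 * (4 * m1) - 1) / 3, by omega⟩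
        have hTv : T v = 4 * m1 := Tit_odd hv
        refine ⟨v, j + 3, ?_, by omega, ?_, ?_⟩
        · rw [Function.iterate_add_apply, Function.iterate_succ_apply, hTv]
          have h5 := T_two_pow 2 m1
          have h6 : (2 : ℤ) ^ 2 * m1 = 4 * m1 := by norm_num
          rw [h6] at h5
          rw [h5, hj]
        · intro h
          have h1 := Per_inj h hp2 (by rw [hTv, Tit_two])
          omega
        · have h6 : 3 * |v| ≤ 8 * |m1| + 1 := by
            have h7 : 3 * |v| = |8 * m1 - 1| := by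
              have : 8 * m1 - 1 = 3 * v := by linarith
              rw [this, abs_mul, abs_of_pos (by norm_num : (0 : ℤ) < 3)]
            rw [h7]
            refine (abs_sub _ _).trans ?_
            rw [habs, abs_of_pos (by norm_num : (0 : ℤ) < 8)]
            norm_num
          have h8 : 1 ≤ |m1| := Int.one_le_abs (by omega)
          linarith
      · refine ⟨2 * (4 * m1), j + 3, ?_, by omega, hp2, ?_⟩
        · rw [Function.iterate_add_apply]
          have h5 := T_two_pow 3 m1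
          have h6 : (2 : ℤ) ^ 3 * m1 = 2 * (4 * m1) := by ring
          rw [h6] at h5
          rw [h5, hj]
        · have h6 : 2 * (4 * m1) = 8 * m1 := by ring
          rw [h6, habs, abs_of_pos (by norm_num : (0 : ℤ) < 8)]
          linarith
    · refine ⟨u, j + 1, ?_, hu3, hup, ?_⟩
      · rw [Function.iterate_add_apply, Function.iterate_one, hTu, hj]
      · have h6 : 3 * |u| ≤ 2 * |m1| + 1 := by
          have h7 : 3 * |u| = |2 * m1 - 1| := by
            have : 2 * m1 - 1 = 3 * u := by linarith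
            rw [this, abs_mul, abs_of_pos (by norm_num : (0 : ℤ) < 3)]
          rw [h7]
          refine (abs_sub _ _).trans ?_
          rw [habs, abs_of_pos (by norm_num : (0 : ℤ) < 2)]
          norm_num
        have h8 : 1 ≤ |m1| := Int.one_le_abs (by omega)
        linarith
  · refine ⟨2 * m1, j + 1, ?_, by omega, hp1, ?_⟩
    · rw [Function.iterate_add_apply, Function.iterate_one, Tit_two, hj]
    · rw [habs, abs_of_pos (by norm_num : (0 : ℤ) < 2)]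
      linarith

/-- **The uniform lower bound**, all targets. -/
theorem uni_all : ∃ D : ℝ, 1 ≤ D ∧ ∀ m : ℤ, ¬ (3 : ℤ) ∣ m → ∀ X : ℕ,
    D * |(m : ℝ)| ≤ X → X / (D * |(m : ℝ)|) ≤ ((pre m X).card : ℝ) := by
  obtain ⟨D, hD, H⟩ := uni_np
  refine ⟨D * 16, by linarith, fun m h3 X hX => ?_⟩
  obtain ⟨m', j, hj, h3', hp, hle⟩ := Uni_side h3
  have hm0 : m ≠ 0 := fun h => h3 (by rw [h]; exact dvd_zero _)
  have hm0' : m' ≠ 0 := fun h => h3' (by rw [h]; exact dvd_zero _)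
  have h1 : (1 : ℝ) ≤ |(m : ℝ)| := by exact_mod_cast Int.one_le_abs hm0
  have h1' : (1 : ℝ) ≤ |(m' : ℝ)| := by exact_mod_cast Int.one_le_abs hm0'
  have hle' : |(m' : ℝ)| ≤ 16 * |(m : ℝ)| := by exact_mod_cast hle
  have hD0 : 0 < D := by linarith
  have hDm : D * |(m' : ℝ)| ≤ D * 16 * |(m : ℝ)| := by
    rw [mul_assoc]
    exact mul_le_mul_of_nonneg_left hle' hD0.le
  have h2 := H m' h3' hp X (hDm.trans hX)
  have h4 : (X : ℝ) / (D * 16 * |(m : ℝ)|) ≤ X / (D * |(m' : ℝ)|) :=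
    div_le_div_of_nonneg_left (by positivity) (by positivity) hDm
  refine (h4.trans h2).trans ?_
  have hsub : pre m' X ⊆ pre m X := by
    intro n hn
    rw [mem_pre] at hn ⊢
    obtain ⟨h5, i, h6⟩ := hn
    refine ⟨h5, j + i, ?_⟩
    rw [Function.iterate_add_apply, h6, hj]
  exact_mod_cast Finset.card_le_card hsub

end Pool.Agent.helper31.UNI
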